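import Pool.Agent.Helper71.PHX.SU
import Pool.Agent.Helper83.PH.E1

/-!
# PHX: `draw_e1` of Helper83/PH with an explicit constant (MP_0dbcb7_co)
-/

set_option autoImplicit false
set_option linter.unusedSectionVars false

open Set
open Pool.Agent.Helper83.OP Pool.Agent.Helper93.HH Pool.Agent.Helper95.HH Pool.Agent.Helper43.HH
open Pool.Agent.Helper23.PL Pool.Agent.Helper83.PH

namespace Pool.Agent.Helper71.PHX

section

variable {V P Q : Type} [Finite V] {D : HD V P Q} {k n0 : ℕ}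

/-- a cycle with a far ball, of minimal length -/
private theorem exists_min {v : V} (Z : D.N.Walk v v) (hZ : Z.IsCycle) {y : V}
    (hy : y ∈ Z.support) {ρ : ℕ} (hF : Far D n0 ρ y) (hK : Z.length ≤ k * ρ) :
    ∃ (y : V) (Z : D.N.Walk y y) (ρ : ℕ), Z.IsCycle ∧ Far D n0 ρ y ∧ Z.length ≤ k * ρ ∧
      ∀ (y' : V) (Z' : D.N.Walk y' y') (ρ' : ℕ), Z'.IsCycle → Far D n0 ρ' y' →
        Z'.length ≤ k * ρ' → Z.length ≤ Z'.length := by
  classical
  have hex : ∃ n, ∃ (y : V) (Z : D.N.Walk y y) (ρ : ℕ), Z.IsCycle ∧ Far D n0 ρ y ∧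
      Z.length ≤ k * ρ ∧ Z.length = n := by
    refine ⟨_, y, Z.rotate y hy, ρ, ?_, hF, ?_, rfl⟩
    · rwa [SimpleGraph.Walk.isCycle_rotate]
    · rwa [SimpleGraph.Walk.length_rotate]
  obtain ⟨y1, Z1, ρ1, h1, h3, h4, h5⟩ := Nat.find_spec hex
  refine ⟨y1, Z1, ρ1, h1, h3, h4, fun y' Z' ρ' g1 g3 g4 => ?_⟩
  rw [h5]
  exact Nat.find_min' hex ⟨y', Z', ρ', g1, g3, g4, rfl⟩

/-- **e1** -/
theorem draw_e1_x (C k kk : ℕ) (hkd : kk = plK (3 * C) (3 * k + 5)) (hk3 : 3 ≤ k) : ∀ (V P Q : Type) [Finite V]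
    (D : HD V P Q) (R n0 : ℕ), Hyp D C R n0 → FCyc D k → ¬ KPl kk D.G → FE1 D k n0 := by
  classical
  have hkk := place_SU_x (3 * C) (3 * k + 5) kk hkd
  clear hkd
  intro V P Q _ D R n0 h hc hno v0 Z0 hZ0 y0 hy0 ρ0 hv0 hp0
  by_contra hcon
  rw [not_lt] at hcon
  apply hno
  obtain ⟨y, Z, ρ, hZ, hF, hZρ, hmin⟩ := exists_min (k := k) Z0 hZ0 hy0 ⟨hv0, hp0⟩ hcon
  have hD := h.ok
  have hG := h.gok
  have hlen := cyc_len hc Z hZ
  have hρ2 : 2 ≤ ρ := by
    by_contra h0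
    have h1 : k * ρ ≤ k * 1 := Nat.mul_le_mul_left _ (by omega)
    omega
  obtain ⟨ρ₁, hρ₁⟩ : ∃ n, n = min (ρ / 2) ((Z.length - 2) / 2) := ⟨_, rfl⟩
  have a1 : 1 ≤ ρ₁ := by omega
  have a2 : 2 * ρ₁ ≤ ρ := by omega
  have a3 : 2 * ρ₁ + 2 ≤ Z.length := by omega
  have a4 : ρ ≤ 3 * ρ₁ ∨ Z.length ≤ 5 * ρ₁ := by omega
  -- the cycle at `y`
  obtain ⟨v, hyv, W0, hW0, hWe, hWl⟩ : ∃ (v : V) (hyv : D.N.Adj y v) (W0 : D.N.Walk v y),
      W0.IsPath ∧ s(y, v) ∉ W0.edges ∧ W0.length + 1 = Z.length := by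
    cases Z with
    | nil => exact absurd hZ.three_le_length (by simp)
    | @cons _ w _ h q =>
      obtain ⟨h1, h2⟩ := (SimpleGraph.Walk.cons_isCycle_iff q h).1 hZ
      exact ⟨w, h, q, h1, h2, by rw [SimpleGraph.Walk.length_cons]⟩
  have hyVN : y ∈ D.VN := HD.VN_of_adj hyv
  have hyU : y ∉ D.U := hD.N_U _ _ hyv
  have hnear : ∀ z, Nr (outG D.G D.U s(y, v)) ρ₁ y z → z ∈ D.VN → Nr D.N ρ₁ y z := by
    intro z hz hzN
    rcases near_VN hD hG s(y, v) hyVN ρ₁ z hz with h1 | ⟨s, j, m, h1, h2, h4, -, -⟩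
    · exact h1.2
    · exfalso
      refine hD.w_N s z (h4 ▸ SimpleGraph.Walk.getVert_mem_support _ _) (fun h5 => ?_) hzN
      have h6 := (hD.w_path s).getVert_injOn (show j ∈ {i | i ≤ (D.w s).length} from h2.le)
        (show (0 : ℕ) ∈ {i | i ≤ (D.w s).length} from Nat.zero_le _)
        (by rw [← h4, h5, SimpleGraph.Walk.getVert_zero])
      omega
  refine hkk V P Q D hD hG R h.two (h.deg.trans (by nlinarith)) h.low h.crit y v (hD.N_le hyv) hyU
    (fun q hq => hD.wq_N q y hq hyVN) ρ₁ a1 ?_ ?_ ?_ ?_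
    ((W0.reverse).transfer (D.G.deleteEdges {s(y, v)}) ?_) ?_ ?_
  · -- no hub near `y`
    intro z hz a ha hza
    exfalso
    rcases near_VN hD hG s(y, v) hyVN ρ₁ z hz with ⟨h1, -⟩ | ⟨s, j, m, h1, h2, h4, h5, h6⟩
    · exact VN_nadj hD hG h1 ha hza
    · have hzs : z ∈ (D.w s).support := h4 ▸ SimpleGraph.Walk.getVert_mem_support _ _
      have hinj := (hD.w_path s).getVert_injOn
      have hzx : z ≠ D.x s := by
        intro h7
        have := hinj (show j ∈ {i | i ≤ (D.w s).length} from h2.le)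
          (show (0 : ℕ) ∈ {i | i ≤ (D.w s).length} from Nat.zero_le _)
          (by rw [← h4, h7, SimpleGraph.Walk.getVert_zero])
        omega
      have hzh : z ≠ D.hub s := by
        intro h7
        have := hinj (show j ∈ {i | i ≤ (D.w s).length} from h2.le)
          (show (D.w s).length ∈ {i | i ≤ (D.w s).length} from le_refl (D.w s).length)
          (by rw [← h4, h7, SimpleGraph.Walk.getVert_length])
        omega
      obtain ⟨-, h7⟩ := pin_iso hD hG hzs hzx hzh hza ha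
      have h8 := hinj (show j ∈ {i | i ≤ (D.w s).length} from h2.le)
        (show (D.w s).length - 1 ∈ {i | i ≤ (D.w s).length} from Nat.sub_le _ _)
        (by rw [← h4]; exact h7)
      exact hF.2 s ⟨m, h5, by omega⟩
  · -- the volume
    refine (vol_cmp D hD hG _ (D.ball ρ y) ?_ ?_).trans ?_
    · exact fun z hz => out_not_U hyU hz
    · intro z hz hzN
      exact (hnear z hz hzN).mono (by omega)
    · have h1 : D.vol (D.ball ρ y) ≤ n0 := hF.1
      have h2 : 3 * C * R = 3 * (C * R) := by ring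
      have := h.vol
      omega
  · -- short cycles
    intro z Z1 hZ1 hz
    by_contra hcon1
    have hlen1 : Z1.length ≤ 2 * ρ₁ + 1 := by omega
    obtain ⟨Z2, hZ2, hZ2l, -⟩ := out_cycle hD hG Z1 hZ1
    have hzN : z ∈ D.VN := by
      cases Z2 with
      | nil => exact absurd hZ2.three_le_length (by simp)
      | cons h q => exact HD.VN_of_adj h
    have h1 := hmin z Z2 (ρ - ρ₁) hZ2 (hF.shift (hnear z hz hzN) (by omega)) ?_
    · omega
    · have h3 : 3 * (ρ - ρ₁) ≤ k * (ρ - ρ₁) := Nat.mul_le_mul_right _ hk3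
      omega
  · -- the other end
    intro hyv'
    obtain ⟨p, hp⟩ := hyv'
    have hpl : p.bypass.length ≤ ρ₁ := p.length_bypass_le_length.trans hp
    have hadj : (outG D.G D.U s(y, y)).Adj v y :=
      ⟨(hD.N_le hyv).symm, fun h0 => hyv.ne (by
        rcases Sym2.eq_iff.1 h0 with ⟨h1, -⟩ | ⟨h1, -⟩
        · exact h1.symm
        · exact h1.symm), hD.N_U _ _ hyv.symm, hyU⟩
    have hcyc : (SimpleGraph.Walk.cons hadj (p.bypass.mapLe (outG_mono D s(y, v) y))).IsCycle := by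
      rw [SimpleGraph.Walk.cons_isCycle_iff]
      refine ⟨(SimpleGraph.Walk.isPath_mapLe _).2 p.bypass_isPath, fun hmem => ?_⟩
      rw [SimpleGraph.Walk.edges_mapLe_eq_edges] at hmem
      exact (p.bypass.adj_of_mem_edges hmem).2.1 (by rw [Sym2.eq_swap])
    obtain ⟨Z2, hZ2, hZ2l, hZ2s⟩ := out_cycle hD hG _ hcyc
    have hmy : y ∈ Z2.support := by
      rw [hZ2s]
      simp
    have hl2 : Z2.length ≤ ρ₁ + 1 := by
      rw [hZ2l, SimpleGraph.Walk.length_cons, SimpleGraph.Walk.length_mapLe]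
      omega
    have h1 := hmin y (Z2.rotate y hmy) ρ (by rwa [SimpleGraph.Walk.isCycle_rotate]) hF ?_
    · rw [SimpleGraph.Walk.length_rotate] at h1
      omega
    · rw [SimpleGraph.Walk.length_rotate]
      have h3 : 3 * ρ ≤ k * ρ := Nat.mul_le_mul_right _ hk3
      omega
  · intro f hf
    rw [SimpleGraph.Walk.edges_reverse, List.mem_reverse] at hf
    rw [SimpleGraph.edgeSet_deleteEdges]
    refine ⟨SimpleGraph.edgeSet_mono hD.N_le (W0.edges_subset_edgeSet hf), fun h => hWe ?_⟩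
    rw [Set.mem_singleton_iff] at h
    rwa [h] at hf
  · exact hW0.reverse.transfer _
  · rw [SimpleGraph.Walk.length_transfer, SimpleGraph.Walk.length_reverse]
    have h0 : ∀ (l : List V), (∀ z ∈ l, z ∉ D.U) →
        (l.map (fun z => if z ∈ D.U ∧ z ≠ v then deg D.G z else 0)).sum = 0 := by
      intro l hl
      refine List.sum_eq_zero fun x hx => ?_
      obtain ⟨z, hz, rfl⟩ := List.mem_map.1 hx
      exact if_neg fun h => hl z hz h.1
    rw [h0]
    · have h1 : Z.length ≤ (3 * k + 5) * ρ₁ := by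
        have h4 : (3 * k + 5) * ρ₁ = k * (3 * ρ₁) + 5 * ρ₁ := by ring
        rcases a4 with h5 | h5
        · have h3 : k * ρ ≤ k * (3 * ρ₁) := Nat.mul_le_mul_left _ h5
          omega
        · omega
      omega
    · intro z hz
      rw [SimpleGraph.Walk.support_transfer, SimpleGraph.Walk.support_reverse,
        List.mem_reverse] at hz
      exact HD.VN_U hD (HD.VN_of_walk W0 (HD.VN_of_adj' hyv) hz)


end

end Pool.Agent.Helper71.PHX
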