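import Pool.Agent.Helper71.PHX.SU
import Pool.Agent.Helper95.PH.P2

/-!
# PHX: `draw_p2` of Helper95/PH with an explicit constant (MP_0dbcb7_co)
-/

set_option autoImplicit false

open Set
open Pool.Agent.Helper83.OP Pool.Agent.Helper83.HR Pool.Agent.Helper93.HH Pool.Agent.Helper95.HH
open Pool.Agent.Helper43.HH Pool.Agent.Helper23.PL
open Pool.Agent.Helper83.PH Pool.Agent.Helper95.PH

namespace Pool.Agent.Helper71.PHX

open Classical in
/-- **(PH) p2** -/
theorem draw_p2_x (C k kk K : ℕ) (hkd : kk = plK (3 * C) (32 * (k + 1)))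
    (hKd : K = max kk (max 9 (2 * (2 * ((64 * k + 1) + 2 * ((64 * k + 1) + 1) +
      C * ((64 * k + 1) + 1) + 8 * (64 * k + 1)))))) : ∀ (V P Q : Type) [Finite V] (D : HD V P Q) (R n0 : ℕ),
    Hyp D C R n0 → 16 ≤ k → FE1 D k n0 → ¬ KPl K D.G → FP2 D k n0 := by
  have hkk := place_SU_x (3 * C) (32 * (k + 1)) kk hkd
  clear hkd
  subst hKd
  intro V P Q _ D R n0 hyp hk hE hno p ρ hρ1 hvol hpin hby
  have hD := hyp.ok
  have hG := hyp.gok
  have hr := hD.r_pos
  have lp1 := hD.w_ge p
  by_cases hwρ : ρ ≤ 64 * (D.w p).length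
  · -- the pin is long
    have h1 : FP1 D (64 * k) := draw_p1 hyp (by omega) fun h =>
      hno (Pool.Agent.Helper66.PL.kpl_le h (le_max_right _ _))
    refine h1 p ?_
    obtain ⟨y, hy, W, hW, hWc⟩ := hby
    refine ⟨y, hy, W, hW, hWc.trans ?_⟩
    calc k * ρ ≤ k * (64 * (D.w p).length) := Nat.mul_le_mul_left _ hwρ
      _ = 64 * k * (D.w p).length := by ring
  rw [not_le] at hwρ
  refine hno (Pool.Agent.Helper66.PL.kpl_le ?_ (le_max_left _ _))
  obtain ⟨y, hy, W0, hW0, hW0c⟩ := hby
  obtain ⟨u, hu⟩ : ∃ u, u = (D.w p).penultimate := ⟨_, rfl⟩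
  obtain ⟨a, ha⟩ : ∃ a, a = D.hub p := ⟨_, rfl⟩
  have haU : a ∈ D.U := ha ▸ hD.hub_U p
  have huU : u ∉ D.U := hu ▸ pen_notU hD p
  have hadj : D.G.Adj u a := by
    rw [hu, ha]
    exact pen_adj hD p
  have he : s(u, a) ∈ (D.w p).edges := by
    have h1 := gv_edge (D.w p) (n := (D.w p).length - 1) (by omega)
    rw [show (D.w p).length - 1 + 1 = (D.w p).length by omega,
      SimpleGraph.Walk.getVert_length] at h1
    rw [hu, ha]
    exact h1
  obtain ⟨J, hJ⟩ : ∃ J, J = ρ / 16 := ⟨_, rfl⟩
  have hJ1 : 1 ≤ J := by omega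
  have hJ2 : 16 * J ≤ ρ := by omega
  have hJρ : ρ ≤ 32 * J := by omega
  -- the ball
  have hpg : pg D p p SimpleGraph.Walk.nil 0 = u := by
    rw [pg_zero, hu]
  have hB : ∀ z, Nr (outG D.G D.U s(u, a)) J u z → z ∉ D.U ∧ (z ∈ (D.w p).support ∨
      (z ∈ D.VN ∧ Nr D.N J (D.x p) z) ∨ Oth D p p J z) := by
    intro z hz
    rw [← hpg] at hz
    have h1 := near_pc hD hG (Nat.zero_le _) hz
    rw [SimpleGraph.Walk.length_nil, Nat.zero_add] at h1
    refine ⟨h1.1, ?_⟩
    rcases h1.2 with h | h | h | h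
    · exact Or.inl h
    · exact Or.inl h
    · exact Or.inr (Or.inl h)
    · exact Or.inr (Or.inr h)
  have hBVN : ∀ z, Nr (outG D.G D.U s(u, a)) J u z → z ∈ D.VN → Nr D.N J (D.x p) z := by
    intro z hz hVN
    rcases (hB z hz).2 with h | h | ⟨s, j, d, a1, a2, a3, a4, a5, a6, a7⟩
    · have h1 : z = D.x p := by
        by_contra hne
        exact hD.w_N p z h hne hVN
      rw [h1]
      exact Nr.refl _ _ _
    · exact h.2
    · rw [a3] at hVN
      have := w_getVert_VN hD s a5 hVN
      omega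
  -- the walk
  obtain ⟨A, hAU, hAl, hAe⟩ : ∃ A : D.G.Walk u (D.x p), (∀ z ∈ A.support, z ∉ D.U) ∧
      A.length + 1 = (D.w p).length ∧ s(u, a) ∉ A.edges := by
    have h0 : (D.w p).getVert ((D.w p).length - 1) = u := by
      rw [hu]
    have hp1 : ((D.w p).take ((D.w p).length - 1)).IsPath := (hD.w_path p).take _
    have hs : ∀ z ∈ ((D.w p).take ((D.w p).length - 1)).support, z ≠ D.hub p := by
      intro z hz h1
      obtain ⟨j, hj, hjl⟩ := SimpleGraph.Walk.mem_support_iff_exists_getVert.1 hz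
      rw [SimpleGraph.Walk.take_length, min_eq_left (by omega)] at hjl
      rw [SimpleGraph.Walk.take_getVert, min_eq_right (by omega)] at hj
      exact w_getVert_ne_hub hD p (i := j) (by omega) (hj.trans h1)
    refine ⟨(((D.w p).take ((D.w p).length - 1)).copy rfl h0).reverse, ?_, ?_, ?_⟩
    · intro z hz
      rw [SimpleGraph.Walk.support_reverse, List.mem_reverse, SimpleGraph.Walk.support_copy] at hz
      have h1 : z ∈ (D.w p).support := by
        obtain ⟨j, hj, hjl⟩ := SimpleGraph.Walk.mem_support_iff_exists_getVert.1 hz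
        rw [SimpleGraph.Walk.take_getVert] at hj
        rw [← hj]
        exact SimpleGraph.Walk.getVert_mem_support _ _
      exact hD.w_U p z h1 (hs z hz)
    · rw [SimpleGraph.Walk.length_reverse, SimpleGraph.Walk.length_copy,
        SimpleGraph.Walk.take_length, min_eq_left (by omega)]
      omega
    · rw [SimpleGraph.Walk.edges_reverse, List.mem_reverse, SimpleGraph.Walk.edges_copy]
      intro h1
      exact hs a (SimpleGraph.Walk.snd_mem_support_of_mem_edges _ h1) ha
  have hya : D.G.Adj y a := by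
    rw [ha]
    exact hy.1.symm
  have hyU : y ∉ D.U := fun h => hub_nadj D hD hG _ (hD.hub_U p) y h hy.1
  obtain ⟨Wg, hWg⟩ : ∃ Wg : D.G.Walk u a, Wg = A.append (W0.append
    (SimpleGraph.Walk.cons hya SimpleGraph.Walk.nil)) := ⟨_, rfl⟩
  have hWge : ∀ f ∈ Wg.edges, f ∈ (D.G.deleteEdges {s(u, a)}).edgeSet := by
    intro f hf
    rw [SimpleGraph.edgeSet_deleteEdges]
    refine ⟨Wg.edges_subset_edgeSet hf, ?_⟩
    intro hfe
    have hfe' : f = s(u, a) := hfe
    rw [hWg, SimpleGraph.Walk.edges_append, List.mem_append, SimpleGraph.Walk.edges_append,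
      List.mem_append, SimpleGraph.Walk.edges_cons, SimpleGraph.Walk.edges_nil, List.mem_singleton,
      hfe'] at hf
    rcases hf with hf | hf | hf
    · exact hAe hf
    · exact hW0 _ hf he
    · apply hy.2
      have h1 : s(D.hub p, y) = s(u, a) := by
        rw [Sym2.eq_swap, ← ha]
        exact hf.symm
      show s(D.hub p, y) ∈ (D.w p).edges
      rw [h1]
      exact he
  have hWgc : Wg.length + (Wg.support.map (fun z => if z ∈ D.U ∧ z ≠ a then deg D.G z else 0)).sum ≤
      (D.w p).length + k * ρ := by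
    have h1 : ∀ {b c : V} (X : D.G.Walk b c),
        (X.support.map (fun z => if z ∈ D.U ∧ z ≠ a then deg D.G z else 0)).sum ≤
        (X.support.map (fun z => if z ∈ D.U then deg D.G z else 0)).sum := by
      intro b c X
      refine List.sum_le_sum fun z _ => ?_
      by_cases hz : z ∈ D.U
      · rw [if_pos hz]
        split_ifs <;> omega
      · rw [if_neg hz, if_neg (fun h0 => hz h0.1)]
    have h2 : (A.support.map (fun z => if z ∈ D.U ∧ z ≠ a then deg D.G z else 0)).sum = 0 := by
      refine List.sum_eq_zero fun x hx => ?_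
      obtain ⟨z, hz, rfl⟩ := List.mem_map.1 hx
      exact if_neg fun h => hAU z hz h.1
    have h3 : (Wg.support.map (fun z => if z ∈ D.U ∧ z ≠ a then deg D.G z else 0)).sum ≤
        (A.support.map (fun z => if z ∈ D.U ∧ z ≠ a then deg D.G z else 0)).sum +
        (W0.support.map (fun z => if z ∈ D.U ∧ z ≠ a then deg D.G z else 0)).sum := by
      have h4 : ∀ (X : D.G.Walk (D.x p) a),
          ((A.append X).support.map (fun z => if z ∈ D.U ∧ z ≠ a then deg D.G z else 0)).sum ≤
          (A.support.map (fun z => if z ∈ D.U ∧ z ≠ a then deg D.G z else 0)).sum +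
          (X.support.map (fun z => if z ∈ D.U ∧ z ≠ a then deg D.G z else 0)).sum := by
        intro X
        rw [SimpleGraph.Walk.support_append, List.map_append, List.sum_append]
        refine Nat.add_le_add_left ?_ _
        exact ((List.tail_sublist _).map _).sum_le_sum (fun _ _ => Nat.zero_le _)
      rw [hWg]
      refine (h4 _).trans (Nat.add_le_add_left (le_of_eq ?_) _)
      rw [SimpleGraph.Walk.support_append, List.map_append, List.sum_append]
      simp
    have h5 : Wg.length = A.length + (W0.length + 1) := by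
      rw [hWg, SimpleGraph.Walk.length_append, SimpleGraph.Walk.length_append,
        SimpleGraph.Walk.length_cons, SimpleGraph.Walk.length_nil]
    have h6 := h1 W0
    unfold cw at hW0c
    omega
  obtain ⟨Wh, hWh⟩ : ∃ Wh : (D.G.deleteEdges {s(u, a)}).Walk u a,
      Wh = (Wg.transfer _ hWge).bypass := ⟨_, rfl⟩
  have hWhc : Wh.length + (Wh.support.map (fun z => if z ∈ D.U ∧ z ≠ a then deg D.G z else 0)).sum ≤
      (D.w p).length + k * ρ := by
    have h1 := sum_bypass (Wg.transfer _ hWge) (fun z => if z ∈ D.U ∧ z ≠ a then deg D.G z else 0)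
    have h2 := (Wg.transfer _ hWge).length_bypass_le_length
    rw [SimpleGraph.Walk.support_transfer] at h1
    rw [SimpleGraph.Walk.length_transfer] at h2
    rw [hWh]
    omega
  refine hkk V P Q D hD hG R hyp.two (hyp.deg.trans (Nat.mul_le_mul_right _ (by omega))) hyp.low
    hyp.crit u a hadj huU ?_ J hJ1 ?_ ?_ ?_ ?_ Wh ?_ ?_
  · intro q hq
    have h1 := hD.wq_w q p u hq (by rw [hu]; exact SimpleGraph.Walk.getVert_mem_support _ _)
    exact huU (h1 ▸ hD.hub_U p)
  · -- isolation
    intro z hz b hb hzb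
    obtain ⟨hzU, h⟩ := hB z hz
    by_cases hVN : z ∈ D.VN
    · exact absurd hzb (VN_nadj hD hG hVN hb)
    rcases h with h | h | ⟨s, j, d, a1, a2, a3, a4, a5, a6, a7⟩
    · obtain ⟨h1, h2⟩ := pin_iso hD hG h (fun h' => hVN (h' ▸ HD.x_VN _))
        (fun h' => hzU (h' ▸ hD.hub_U _)) hzb hb
      rw [h1, h2, hu, ha]
    · exact absurd h.1 hVN
    · exfalso
      have h1 : z ∈ (D.w s).support := by
        rw [a3]
        exact SimpleGraph.Walk.getVert_mem_support _ _
      obtain ⟨h2, h3⟩ := pin_iso hD hG h1 (fun h' => hVN (h' ▸ HD.x_VN _))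
        (fun h' => hzU (h' ▸ hD.hub_U _)) hzb hb
      rw [a3] at h3
      have h4 : j = (D.w s).length - 1 :=
        (hD.w_path s).getVert_injOn (by simp; omega : j ∈ {i | i ≤ (D.w s).length})
          (by simp : (D.w s).length - 1 ∈ {i | i ≤ (D.w s).length}) h3
      exact a1 (hpin s ⟨d, a6, by omega⟩)
  · -- volume
    have h1 := vol_cmp D hD hG {z | Nr (outG D.G D.U s(u, a)) J u z} (D.ball ρ (D.x p))
      (fun z hz => (hB z hz).1) (fun z hz hVN => (hBVN z hz hVN).mono (by omega))
    have h2 := hyp.vol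
    have h4 : 3 * C * R = 3 * (C * R) := by ring
    omega
  · -- cycles
    intro z Z hZ hz
    obtain ⟨Z', hZ', hlen, -⟩ := out_cycle hD hG Z hZ
    have hzVN : z ∈ D.VN := by
      obtain ⟨w, hw⟩ : ∃ w, D.N.Adj z w := by
        cases Z' with
        | nil => exact absurd hZ' SimpleGraph.Walk.not_isCycle_nil
        | cons h _ => exact ⟨_, h⟩
      exact HD.VN_of_adj hw
    have h1 := long_cyc (q := p) hD hE hk hvol (fun s hs => Or.inl (hpin s hs)) Z' hZ'
      Z'.start_mem_support (hBVN z hz hzVN)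
    rw [hlen] at h1
    omega
  · intro h
    exact (hB a h).1 haU
  · rw [hWh]
    exact SimpleGraph.Walk.bypass_isPath _
  · have h1 : 32 * (k + 1) * J = (k + 1) * (32 * J) := by ring
    have h2 : (k + 1) * ρ ≤ (k + 1) * (32 * J) := Nat.mul_le_mul_left _ hJρ
    have h3 : (k + 1) * ρ = k * ρ + ρ := by ring
    rw [h1]
    refine le_trans hWhc ?_
    omega

end Pool.Agent.Helper71.PHX
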