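import Pool.Agent.Helper83.PH.Draw
import Pool.Agent.Helper71.PHX.E1
import Pool.Agent.Helper71.PHX.P2
import Pool.Agent.Helper71.PHX.P3

/-!
# PHX: the drawing half of (PH) with a polynomial constant (MP_0dbcb7_co)
-/

set_option autoImplicit false

open Set
open Pool.Agent.Helper83.OP Pool.Agent.Helper93.HH Pool.Agent.Helper95.HH Pool.Agent.Helper23.PL
open Pool.Agent.Helper83.PH Pool.Agent.Helper71.PH

namespace Pool.Agent.Helper71.PHX

/-- the constant of `draw_PH_x` -/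
def drK (C k : ℕ) : ℕ :=
  plK (3 * C) (3 * k + 5) +
  max (plK (3 * C) (32 * (k + 1))) (max 9 (2 * (2 * ((64 * k + 1) + 2 * ((64 * k + 1) + 1) +
    C * ((64 * k + 1) + 1) + 8 * (64 * k + 1))))) +
  plK (3 * C) (32 * (4 * k + 4)) + max 9 (2 * (24 * k + 2 * (C * k))) +
  max 9 (2 * (2 * ((k + 1) + 2 * ((k + 1) + 1) + C * ((k + 1) + 1) + 8 * (k + 1))))

/-- **The drawing half of (PH)**, explicit constant -/
theorem draw_PH_x (C k : ℕ) (hk : 16 ≤ k) (V P Q : Type) [Finite V]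
    (D : HD V P Q) (R n0 : ℕ) (h : Hyp D C R n0) (hno : ¬ KPl (drK C k) D.G) : BadW D k n0 := by
  have hle : ∀ m, m ≤ drK C k → ¬ KPl m D.G :=
    fun m hm hK => hno (Pool.Agent.Helper71.PH.kpl_le hm hK)
  have c1 : FCyc D k := draw_cyc h (by omega) (hle _ (by unfold drK; omega))
  have c2 : FQ1 D k := draw_q1 h (by omega) (hle _ (by unfold drK; omega))
  have c3 : FP1 D k := draw_p1 h (by omega) (hle _ (by unfold drK; omega))
  have c4 : FE1 D k n0 := draw_e1_x C k _ rfl (by omega) V P Q D R n0 h c1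
    (hle _ (by unfold drK; omega))
  exact ⟨c1, c2, c3, c4, draw_p2_x C k _ _ rfl rfl V P Q D R n0 h hk c4
      (hle _ (by unfold drK; omega)),
    draw_p3_x C k _ rfl V P Q D R n0 h hk c4 (hle _ (by unfold drK; omega))⟩

theorem plK_poly : ∃ a : ℕ, ∀ C K N : ℕ, C ≤ N → K ≤ 160 * N → 1 ≤ N →
    plK (3 * C) K ≤ a * N ^ 28 := by
  refine ⟨199 * 327 ^ 7 * 60000 ^ 14, ?_⟩
  intro C K N hC hK hN
  unfold plK
  refine (schK_poly _ _).trans ?_
  have e1 : K * (2 * K + 1) ≤ 160 * N * (321 * N) := Nat.mul_le_mul hK (by omega)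
  have e2 : 160 * N * (321 * N) = 51360 * N ^ 2 := by ring
  have e3 : N ≤ N ^ 2 := by
    calc N = N ^ 1 := (pow_one N).symm
      _ ≤ N ^ 2 := Nat.pow_le_pow_right hN (by omega)
  have e4 : 3 * (3 * C) + 1 + (K * (2 * K + 1) + 2 + 6 * K + 1) + 1 ≤ 60000 * N ^ 2 := by omega
  calc 199 * 327 ^ 7 * (3 * (3 * C) + 1 + (K * (2 * K + 1) + 2 + 6 * K + 1) + 1) ^ 14
      ≤ 199 * 327 ^ 7 * (60000 * N ^ 2) ^ 14 :=
        Nat.mul_le_mul_left _ (Nat.pow_le_pow_left e4 14)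
    _ = 199 * 327 ^ 7 * 60000 ^ 14 * N ^ 28 := by ring

theorem drK_poly : ∃ c : ℕ, ∀ C k : ℕ, drK C k ≤ c * (C + k + 1) ^ c := by
  obtain ⟨a, ha⟩ := plK_poly
  refine ⟨3 * a + 10000, ?_⟩
  intro C k
  obtain ⟨N, hN⟩ : ∃ N, N = C + k + 1 := ⟨_, rfl⟩
  rw [← hN]
  have hN1 : 1 ≤ N := by omega
  have h1 := ha C (3 * k + 5) N (by omega) (by omega) hN1
  have h2 := ha C (32 * (k + 1)) N (by omega) (by omega) hN1
  have h3 := ha C (32 * (4 * k + 4)) N (by omega) (by omega) hN1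
  have e3 : N ≤ N ^ 2 := by
    calc N = N ^ 1 := (pow_one N).symm
      _ ≤ N ^ 2 := Nat.pow_le_pow_right hN1 (by omega)
  have e4 : C * ((64 * k + 1) + 1) ≤ N * (66 * N) := Nat.mul_le_mul (by omega) (by omega)
  have e5 : C * k ≤ N * N := Nat.mul_le_mul (by omega) (by omega)
  have e6 : C * ((k + 1) + 1) ≤ N * (2 * N) := Nat.mul_le_mul (by omega) (by omega)
  have e7 : N * (66 * N) = 66 * N ^ 2 := by ring
  have e8 : N * N = N ^ 2 := by ring
  have e9 : N * (2 * N) = 2 * N ^ 2 := by ring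
  have e10 : N ^ 2 ≤ N ^ 28 := Nat.pow_le_pow_right hN1 (by omega)
  have h4 : drK C k ≤ (3 * a + 10000) * N ^ 28 := by
    have h5 : (3 * a + 10000) * N ^ 28 = a * N ^ 28 + a * N ^ 28 + a * N ^ 28 + 10000 * N ^ 28 := by
      ring
    rw [h5]
    unfold drK
    omega
  exact h4.trans (Nat.mul_le_mul_left _ (Nat.pow_le_pow_right hN1 (by omega)))

/-- **The drawing half of (PH)**, polynomial constant -/
theorem draw_PH_p : ∃ c : ℕ, ∀ C k : ℕ, 16 ≤ k → ∀ (V P Q : Type) [Finite V]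
    (D : HD V P Q) (R n0 : ℕ), Hyp D C R n0 → ¬ KPl (c * (C + k + 1) ^ c) D.G →
    BadW D k n0 := by
  obtain ⟨c, hc⟩ := drK_poly
  refine ⟨c, ?_⟩
  intro C k hk V P Q _ D R n0 h hno
  exact draw_PH_x C k hk V P Q D R n0 h
    (fun hK => hno (Pool.Agent.Helper71.PH.kpl_le (hc C k) hK))

end Pool.Agent.Helper71.PHX
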